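import Pool.Agent.N956.BG.Fin
import Pool.Agent.N956.BG.Cnt
import Pool.Agent.N956.BG.Hyp
import Pool.Agent.N956.BG.Dens
import Pool.Agent.N956.BG.Min
import Pool.Agent.N956.BG.Iso
import Pool.Agent.N956.BG.Bud
import Pool.Agent.N956.BG.Ph1
import Pool.Agent.N956.BG.Ph2
import Pool.Agent.N956.BG.Okl

/-!
# Minimum degree `k` at its hitting time with a budget just above `k n / 2` (MP_59e60d_pr)

Strategy: buy only edges both ends of which have degree less than `k` in Builder's graph until
almost `k n / 2` edges are bought (this takes `O(n)` steps with high probability), then buy every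
edge at a vertex of degree less than `k`. With probability bounded below the last vertex to be
saturated after the time `M n` was isolated at the time `M n`; then the time of saturation is the
hitting time and nothing skipped early was needed.

By helper956 (assembly, deterministic success event) with helpers 306 (CNT), 8 (HYP), 454 (DENS),
713 (MIN), 692 (ISO), 78 (BUD), 482 (PH1), 507 (PH2), 717 (OKL).
-/

set_option autoImplicit false

namespace Pool.Agent.Results.MP_59e60d_pr.BudgetAboveHalf

open Filter Topology Pool.Agent.N956.BG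

/-- For every `k ≥ 1`:
(1) for every `η > 0` there are strategies with budget at most `(k/2 + η) n` which build a graph of
minimum degree at least `k` by the hitting time of minimum degree `k` with probability at least
`c > 0` for all large `n`;
(2) if `o` is the constant `o_k` (the `k`-nearest neighbour graph has `o n + o(n)` edges with
probability tending to one) then for some `ε > 0` there are such strategies with budget at most
`(o - ε) n`. -/
theorem result (k : ℕ) (hk : 1 ≤ k) :
    (∀ η : ℝ, 0 < η → ∃ (b : ℕ → ℕ) (S : ∀ n : ℕ, Strategy n),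
      (∀ n, (b n : ℝ) ≤ ((k : ℝ) / 2 + η) * n) ∧
      (∀ n (ω : Pool.Agent.N956.BG.Ord n) (s : ℕ), (B (S n) ω s).card ≤ b n) ∧
      ∃ c : ℝ, 0 < c ∧ ∀ᶠ n : ℕ in atTop,
        c ≤ Pr n (fun ω => ∀ v, k ≤ deg (B (S n) ω (tau k ω)) v)) ∧
    (∀ o : ℝ, IsO k o → ∃ (ε : ℝ) (b : ℕ → ℕ) (S : ∀ n : ℕ, Strategy n), 0 < ε ∧
      (∀ n, (b n : ℝ) ≤ (o - ε) * n) ∧
      (∀ n (ω : Pool.Agent.N956.BG.Ord n) (s : ℕ), (B (S n) ω s).card ≤ b n) ∧
      ∃ c : ℝ, 0 < c ∧ ∀ᶠ n : ℕ in atTop,
        c ≤ Pr n (fun ω => ∀ v, k ≤ deg (B (S n) ω (tau k ω)) v)) := by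
  have hH : S_HYP := hyp cnt
  have h1 := main (dens hH) (iso cnt) (min_deg hH) bud ph1 ph2 k hk
  refine ⟨h1, fun o ho => ?_⟩
  obtain ⟨b, S, h2, h3, h4⟩ := h1 (1 / 8) (by norm_num)
  refine ⟨1 / 8, b, S, by norm_num, fun n => (h2 n).trans ?_, h3, h4⟩
  apply mul_le_mul_of_nonneg_right _ (Nat.cast_nonneg n)
  have := okl k hk o ho
  linarith

end Pool.Agent.Results.MP_59e60d_pr.BudgetAboveHalf
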